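import Pool.Agent.H136R3.Assemble

set_option autoImplicit false

/-!
# A Swiss cheese with one Gleason part of full measure and no bounded point derivations

The set `X` is a closed disc minus open discs of radius `c_k δ_k²` centred at all points of the grids
`δ_k ℤ²` with `δ_k = 2^(-m_k)`, where `c_k` and `δ_k` tend to `0` very fast, but `c_k m_k → ∞`.

* No derivations: at each `x`, a sum of the functions `r u_a / (z - a)` over the grid points `a` in
  an octant at `x` is bounded by `9` on `X` and has a derivative of size `c_k m_k` at `x`.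
* Each `f` splits as `h + E` where `h` is holomorphic on the domain `W_k` (the disc minus the discs of
  the first `k` stages) and `E` is small off the discs of the later stages; `h` is bounded by `1 + O(c_{k+1})`
  by the maximum principle on squares avoiding the later discs. A Harnack type inequality on `W_k`
  transfers `f(x₀) ≈ 1` to `f(z) ≈ 1` for almost all `z`; `c_{k+1}` is chosen after the constants of `W_k`.
* A nonpeak point has, by Bishop's criterion, a dominating measure without mass at the point, hence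
  there are many points close to it in the norm of the dual of `R(X)`; one of these is good.
-/

open MeasureTheory Filter Topology Set Metric Polynomial

namespace Pool.Agent.Results.MP_06dd87_an.OnePart

/-- The set of (restrictions to `X` of) rational functions with poles off `X`. -/
def ratSet (X : Set ℂ) : Set C(X, ℂ) :=
  {g | ∃ p q : ℂ[X], (∀ z ∈ X, q.eval z ≠ 0) ∧ ∀ z : X, g z = p.eval (z : ℂ) / q.eval (z : ℂ)}

/-- `R(X)` for compact `X`: the closure in `C(X)` of the set of rational functions with poles off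
`X` (for compact `X` the topology of `C(X, ℂ)` is the one of uniform convergence). -/
def R (X : Set ℂ) : Set C(X, ℂ) := closure (ratSet X)

/-- `x` is a peak point for `R(X)`. -/
def IsPeakPoint (X : Set ℂ) (x : X) : Prop :=
  ∃ f ∈ R X, f x = 1 ∧ ∀ y : X, y ≠ x → ‖f y‖ < 1

/-- `x ∼ y`: the norm of the difference of the evaluations at `x` and `y` in the dual of `R(X)` is
less than `2`. -/
def GleasonRel (X : Set ℂ) (x y : X) : Prop :=
  ∃ δ : ℝ, δ < 2 ∧ ∀ f ∈ R X, ∀ M : ℝ, (∀ z : X, ‖f z‖ ≤ M) → ‖f x - f y‖ ≤ δ * M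

/-- The values of `D` on `R(X)` form a bounded point derivation on `R(X)` at `x`. -/
structure IsBoundedPointDerivation (X : Set ℂ) (x : X) (D : C(X, ℂ) → ℂ) : Prop where
  add : ∀ f ∈ R X, ∀ g ∈ R X, D (f + g) = D f + D g
  smul : ∀ c : ℂ, ∀ f ∈ R X, D (c • f) = c * D f
  mul : ∀ f ∈ R X, ∀ g ∈ R X, D (f * g) = f x * D g + g x * D f
  bound : ∃ K : ℝ, ∀ f ∈ R X, ∀ M : ℝ, (∀ z : X, ‖f z‖ ≤ M) → ‖D f‖ ≤ K * M

/-- Classical Swiss cheeses: a closed disc minus a sequence of open discs whose closures are pairwise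
disjoint and contained in the open disc, with summable radii, and with empty interior. -/
def IsClassicalSwissCheese (X : Set ℂ) : Prop :=
  ∃ (c : ℂ) (ρ : ℝ) (a : ℕ → ℂ) (r : ℕ → ℝ), 0 < ρ ∧ (∀ n, 0 < r n) ∧
    (∀ n, closedBall (a n) (r n) ⊆ ball c ρ) ∧
    (∀ m n, m ≠ n → Disjoint (closedBall (a m) (r m)) (closedBall (a n) (r n))) ∧
    Summable r ∧ X = closedBall c ρ \ ⋃ n, ball (a n) (r n) ∧ interior X = ∅

open Pool.Agent.H136R3 Par

/-- There is a (classical) Swiss cheese `X` such that the set of nonpeak points of `R(X)` is one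
Gleason part, the set of peak points has measure `0` (while `X` has positive measure), and `R(X)` has
no nonzero bounded point derivation at any point. -/
theorem result : ∃ X : Set ℂ, IsCompact X ∧ IsClassicalSwissCheese X ∧
    (∃ x₀ : X, {x : X | ¬ IsPeakPoint X x} = {x : X | GleasonRel X x₀ x}) ∧
    (volume {z : ℂ | ∃ h : z ∈ X, IsPeakPoint X ⟨z, h⟩} = 0 ∧ volume X ≠ 0) ∧
    ∀ (x : X) (D : C(X, ℂ) → ℂ), IsBoundedPointDerivation X x D → ∀ f ∈ R X, D f = 0 := by
  obtain ⟨P, hP1, K, hK⟩ := exists_final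
  have hX := P.isCompact_XX
  have hinf := P.infinite_good
  obtain ⟨e⟩ : Nonempty (ℕ ≃ {i : ℕ × ℤ × ℤ // P.Good i}) := nonempty_equiv_of_countable
  have hr : ∀ n, 0 < P.rr (e n).1.1 := fun n => P.rr_pos _
  have hs : Summable fun n => P.rr (e n).1.1 := (Equiv.summable_iff e).2 P.summable_rr
  have hin : ∀ n, closedBall (P.ctr (e n).1) (P.rr (e n).1.1) ⊆ ball (0 : ℂ) R0 := fun n =>
    (P.config {(e n).1} (fun i hi => by
      rw [Finset.mem_singleton.1 hi]; exact (e n).2)).inside _ (Finset.mem_singleton_self _)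
  have hdisj : ∀ m n, m ≠ n → Disjoint (closedBall (P.ctr (e m).1) (P.rr (e m).1.1))
      (closedBall (P.ctr (e n).1) (P.rr (e n).1.1)) := fun m n hmn => by
    classical
    refine (P.config {(e m).1, (e n).1} (fun i hi => ?_)).disj _ (Finset.mem_insert_self _ _) _
      (Finset.mem_insert_of_mem (Finset.mem_singleton_self _)) fun h => hmn ?_
    · rcases Finset.mem_insert.1 hi with rfl | hi
      · exact (e m).2
      · rw [Finset.mem_singleton.1 hi]; exact (e n).2
    · exact e.injective (Subtype.ext h)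
  -- good points
  have hN := P.ae_GP hK e
  have hGPX : ∀ z ∈ P.GP K, z ∈ P.XX := fun z hz => ⟨hz.1.le, fun i => (hz.2.1 i).le⟩
  have hx0 : x0 ∈ P.XX := by
    have h := P.x0_mem 0
    obtain ⟨h1, h2⟩ := P.mem_XX_of_line (z := x0) (by simp [x0]) rfl
    refine ⟨h1.le, fun i => ?_⟩
    have := h2 i
    have := P.rr_le' i.1
    have := P.dl_pos i.1
    linarith
  have hclGP : ∀ z ∈ P.GP K, ∃ δ : ℝ, δ < 2 ∧ Cl P.XX δ x0 z := by
    intro z hz
    obtain ⟨τ, hτ, H⟩ := P.transfer_of_GP hK hz
    exact cl_of_transfer hx0 (hGPX z hz) hτ (by norm_num) H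
  -- `X` has positive measure
  have hvol := volume_ne_zero (c := (0 : ℂ)) R0_pos hr hs hin
  have hsubX : ball (0 : ℂ) R0 \ ⋃ n, closedBall (P.ctr (e n).1) (P.rr (e n).1.1) ⊆ P.XX := by
    rw [P.XX_eq e]
    exact diff_subset_diff ball_subset_closedBall (iUnion_mono fun n => ball_subset_closedBall)
  have hvolX : volume P.XX ≠ 0 := fun h => hvol (measure_mono_null hsubX h)
  refine ⟨P.XX, hX, ⟨0, R0, fun n => P.ctr (e n).1, fun n => P.rr (e n).1.1, R0_pos, hr, hin, hdisj,
    hs, P.XX_eq e, P.interior_XX⟩, ⟨⟨x0, hx0⟩, ?_⟩, ⟨?_, hvolX⟩, ?_⟩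
  · -- nonpeak = part
    ext x
    constructor
    · intro hx
      obtain ⟨μ, hμ1, hμ2, hμ3⟩ := exists_measure0 hX (x := x) hx
      obtain ⟨w, hwX, hwN, -, hcl⟩ := exists_close_of_measure hX hμ3 hμ2
        (q := 1 / 16) (by norm_num) (by norm_num) hN
      have hwGP : w ∈ P.GP K := by
        by_contra h
        exact hwN ⟨hwX, h⟩
      obtain ⟨τ, hτ, H⟩ := P.transfer_of_GP hK hwGP
      obtain ⟨δ, hδ, hδcl⟩ := cl_of_transfer hx0 x.2 (c := 5 / 8) hτ (by norm_num)
        (fun f hf hf1 hfx => by
          have h1 := H f hf hf1 hfx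
          have h2 := hcl f hf 1 hf1
          have h3 : f x - 1 = (f x - f w) + (f w - 1) := by ring
          rw [h3]
          refine (norm_add_le _ _).trans ?_
          linarith)
      exact ⟨δ, hδ, rel_of_cl hX (x := ⟨x0, hx0⟩) (y := x) hδcl⟩
    · rintro ⟨δ, hδ, h⟩ hpeak
      have hcl := cl_of_rel h
      by_cases hxx : x = ⟨x0, hx0⟩
      · -- `x₀` is not a peak point
        subst hxx
        obtain ⟨z, hz, hzx⟩ : ∃ z ∈ P.GP K, z ≠ x0 := by
          by_contra hcon
          push Not at hcon
          apply hvolX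
          refine measure_mono_null (t := (P.XX \ P.GP K) ∪ {x0}) ?_ ?_
          · intro z hz
            by_cases h : z ∈ P.GP K
            · exact Or.inr (hcon z h)
            · exact Or.inl ⟨hz, h⟩
          · rw [measure_union_null_iff]
            exact ⟨hN, measure_singleton _⟩
        obtain ⟨δ', hδ', hcl'⟩ := hclGP z hz
        exact not_cl_of_peak hX (x := ⟨x0, hx0⟩) (y := ⟨z, hGPX z hz⟩)
          (fun h => hzx (congrArg Subtype.val h).symm) hpeak hδ' hcl'
      · exact not_cl_of_peak hX hxx hpeak hδ hcl.symm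
  · -- peak points have measure zero
    refine measure_mono_null (t := (P.XX \ P.GP K) ∪ {x0}) ?_ ?_
    · rintro z ⟨hz, hpeak⟩
      by_cases h : z ∈ P.GP K
      · right
        by_contra hzx
        obtain ⟨δ, hδ, hcl⟩ := hclGP z h
        exact not_cl_of_peak hX (x := ⟨z, hz⟩) (y := ⟨x0, hx0⟩)
          (fun h => hzx (congrArg Subtype.val h)) hpeak hδ hcl.symm
      · exact Or.inl ⟨hz, h⟩
    · rw [measure_union_null_iff]
      exact ⟨hN, measure_singleton _⟩
  · intro x D hD
    exact Deriv.derivation_eq_zero hX (P.not_N2 hP1 x.2) ⟨hD.add, hD.smul, hD.mul, hD.bound⟩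

end Pool.Agent.Results.MP_06dd87_an.OnePart
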